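import Pool.Agent.helper24.Welsh.Tool2
import Pool.Agent.helper77.Welsh.CY

/-! Module CT of the Welsh project (MP_1cfd26_co): counting along a chain of sides. -/

set_option autoImplicit false

namespace Pool.Agent.helper24.Welsh

open Finset Module

variable {V : Type} [AddCommGroup V] [Module (ZMod 2) V] [DecidableEq V]

theorem chain_count (D' : Finset V) (ψ : V → ℕ) (N : ℕ) (h0 : 2 ≤ N) (h2 : ∀ x ∈ D', 2 ≤ ψ x)
    (hgap : ∀ x ∈ D', ∀ y ∈ D', x ≠ y → ψ x + 2 ≤ ψ y ∨ ψ y + 2 ≤ ψ x) (hN : ∀ x ∈ D', ψ x + 2 ≤ N) :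
    2 * (D'.card + 1) ≤ N := by
  have h1 : D'.card ≤ (Finset.Icc 1 ((N - 2) / 2)).card := by
    apply Finset.card_le_card_of_injOn (fun x => ψ x / 2)
    · intro x hx
      have a1 := h2 x hx
      have a2 := hN x hx
      simp only [Finset.coe_Icc, Set.mem_Icc]
      omega
    · intro x hx y hy hxy
      by_contra hne
      have := hgap x hx y hy hne
      simp only at hxy
      omega
  rw [Nat.card_Icc] at h1
  omega

/-- representatives of the classes of `D` different from the class of `x₁`, extending `R0` -/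
theorem CT_reps (U : Submodule (ZMod 2) V) (D R0 : Finset V) (x₁ : V) (hR0 : R0 ⊆ D)
    (h1 : ∀ r ∈ R0, r + x₁ ∉ U) (h2 : ∀ r ∈ R0, ∀ r' ∈ R0, r ≠ r' → r + r' ∉ U) :
    ∃ R ⊆ D, R0 ⊆ R ∧ (∀ r ∈ R, r + x₁ ∉ U) ∧ (∀ r ∈ R, ∀ r' ∈ R, r ≠ r' → r + r' ∉ U) ∧
      (∀ u ∈ D, u + x₁ ∈ U ∨ ∃ r ∈ R, u + r ∈ U) := by
  classical
  obtain ⟨R, hR, hmax⟩ := Finset.exists_max_image
    (D.powerset.filter (fun R => R0 ⊆ R ∧ (∀ r ∈ R, r + x₁ ∉ U) ∧
      (∀ r ∈ R, ∀ r' ∈ R, r ≠ r' → r + r' ∉ U))) Finset.card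
    ⟨R0, by
      rw [Finset.mem_filter, Finset.mem_powerset]
      exact ⟨hR0, subset_rfl, h1, h2⟩⟩
  rw [Finset.mem_filter, Finset.mem_powerset] at hR
  obtain ⟨hRD, hR0R, hR1, hR2⟩ := hR
  refine ⟨R, hRD, hR0R, hR1, hR2, ?_⟩
  intro u hu
  by_contra hcon
  push Not at hcon
  obtain ⟨hc1, hc2⟩ := hcon
  have huR : u ∉ R := by
    intro h
    apply hc2 u h
    rw [dbl]; exact U.zero_mem
  have hmem : insert u R ∈ D.powerset.filter (fun R => R0 ⊆ R ∧ (∀ r ∈ R, r + x₁ ∉ U) ∧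
      (∀ r ∈ R, ∀ r' ∈ R, r ≠ r' → r + r' ∉ U)) := by
    rw [Finset.mem_filter, Finset.mem_powerset]
    refine ⟨Finset.insert_subset hu hRD, hR0R.trans (Finset.subset_insert _ _), ?_, ?_⟩
    · intro r hr
      rcases Finset.mem_insert.1 hr with rfl | hr
      · exact hc1
      · exact hR1 r hr
    · intro r hr r' hr' hne
      rcases Finset.mem_insert.1 hr with h | hr
      · rcases Finset.mem_insert.1 hr' with h' | hr'
        · exact absurd (h.trans h'.symm) hne
        · rw [h]; exact hc2 r' hr'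
      · rcases Finset.mem_insert.1 hr' with h' | hr'
        · rw [h', add_comm]; exact hc2 r hr
        · exact hR2 r hr r' hr' hne
  have := hmax _ hmem
  rw [Finset.card_insert_of_notMem huR] at this
  omega

/-- difference of two sides -/
theorem CT_diff {U : Submodule (ZMod 2) V} {x₁ r r' : V} {A A' : Finset V}
    (h : r + x₁ + sg A ∈ U) (h' : r' + x₁ + sg A' ∈ U) (hs : A ⊆ A') :
    r' + r + sg (A' \ A) ∈ U := by
  rw [sg_sdiff hs]
  have := U.add_mem h h'
  have e : r + x₁ + sg A + (r' + x₁ + sg A') = r' + r + (sg A' + sg A) + (x₁ + x₁) := by abel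
  rw [e, dbl, add_zero] at this
  exact this

theorem rooted_count {U : Submodule (ZMod 2) V} {G Z B D : Finset V} (hreg : Reg U G)
    (hZG : Z ⊆ G) (hBG : B ⊆ G) (hDG : D ⊆ G) (hZ : Circ U Z) (hB : Ind (cl U Z) B)
    (h1 : ∀ x ∈ D, x ∉ cl (cl U Z) B) (h2 : ∀ x ∈ D, ∀ y ∈ D, x + y ∈ cl (cl U Z) B)
    {e : V} (he : e ∈ Z)
    (hside : ∀ x ∈ D, ∀ y ∈ D, ∀ A ⊆ Z, A.Nonempty → e ∉ A → x + y + sg A ∈ cl U B → 2 ≤ A.card)
    {x₁ : V} (hx₁ : x₁ ∈ D) :
    ∃ R ⊆ D, (∀ u ∈ D, u + x₁ ∈ cl U B ∨ ∃ r ∈ R, u + r ∈ cl U B) ∧ 2 * (R.card + 1) ≤ Z.card + 1 := by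
  have hZ' : Circ (cl U B) Z := hZ.ext hB
  have hcomm : cl (cl U Z) B = cl (cl U B) Z := cl_comm U Z B
  rw [hcomm] at h1 h2
  obtain ⟨S, hS1, hS2⟩ := cyc (hreg.mono subset_rfl hBG) hZG hDG hZ' h1 h2 hx₁
  obtain ⟨R, hRD, -, hR1, hR2, hR3⟩ := CT_reps (cl U B) D ∅ x₁ (by simp) (by simp) (by simp)
  refine ⟨R, hRD, hR3, ?_⟩
  have hZpos : 0 < Z.card := Finset.card_pos.2 hZ.1
  -- chain of sides
  have hne : ∀ r ∈ R, ∀ r' ∈ R, r ≠ r' → S r ≠ S r' := by
    intro r hr r' hr' hrr he'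
    have a1 := (hS1 r (hRD hr) (hR1 r hr)).2.2.2
    have a2 := (hS1 r' (hRD hr') (hR1 r' hr')).2.2.2
    have a3 := CT_diff a1 a2 (by rw [he'])
    rw [he', Finset.sdiff_self, sg_empty, add_zero] at a3
    exact hR2 r' hr' r hr (Ne.symm hrr) a3
  have hgap : ∀ r ∈ R, ∀ r' ∈ R, r ≠ r' → S r ⊆ S r' →
      (S r).card + (if e ∈ S r then 1 else 0) + 2 ≤ (S r').card + (if e ∈ S r' then 1 else 0) := by
    intro r hr r' hr' hrr hsub
    obtain ⟨b1, b2, b3, b4⟩ := hS1 r (hRD hr) (hR1 r hr)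
    obtain ⟨c1, c2, c3, c4⟩ := hS1 r' (hRD hr') (hR1 r' hr')
    have hd := CT_diff b4 c4 hsub
    have hcard : (S r' \ S r).card = (S r').card - (S r).card := Finset.card_sdiff_of_subset hsub
    have hle := Finset.card_le_card hsub
    have hnon : (S r' \ S r).Nonempty := by
      rw [Finset.sdiff_nonempty]
      intro h
      exact hne r hr r' hr' hrr (Finset.Subset.antisymm hsub h)
    have hpos := Finset.card_pos.2 hnon
    by_cases he1 : e ∈ S r' \ S r
    · rw [Finset.mem_sdiff] at he1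
      rw [if_neg he1.2, if_pos he1.1]
      omega
    · have h3 := hside r' (hRD hr') r (hRD hr) (S r' \ S r) (Finset.sdiff_subset.trans c1) hnon he1 hd
      rw [Finset.mem_sdiff] at he1
      by_cases he2 : e ∈ S r
      · rw [if_pos he2, if_pos (hsub he2)]; omega
      · rw [if_neg he2, if_neg (fun h => he1 ⟨h, he2⟩)]; omega
  refine chain_count R (fun r => (S r).card + (if e ∈ S r then 1 else 0)) (Z.card + 1) (by omega)
    ?_ ?_ ?_
  · intro r hr
    obtain ⟨b1, b2, b3, b4⟩ := hS1 r (hRD hr) (hR1 r hr)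
    have hpos := Finset.card_pos.2 b2
    by_cases he1 : e ∈ S r
    · simp only [if_pos he1]; omega
    · simp only [if_neg he1]
      exact hside r (hRD hr) x₁ hx₁ (S r) b1 b2 he1 b4
  · intro r hr r' hr' hrr
    rcases hS2 r (hRD hr) r' (hRD hr') (hR1 r hr) (hR1 r' hr') with h | h
    · left; exact hgap r hr r' hr' hrr h
    · right; exact hgap r' hr' r hr (Ne.symm hrr) h
  · intro r hr
    obtain ⟨b1, b2, b3, b4⟩ := hS1 r (hRD hr) (hR1 r hr)
    have hnon : (Z \ S r).Nonempty := by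
      rw [Finset.sdiff_nonempty]
      intro h
      exact b3 (Finset.Subset.antisymm b1 h)
    have hpos := Finset.card_pos.2 hnon
    have hcard : (Z \ S r).card = Z.card - (S r).card := Finset.card_sdiff_of_subset b1
    have hle := Finset.card_le_card b1
    by_cases he1 : e ∈ S r
    · have hd : r + x₁ + sg (Z \ S r) ∈ cl U B := by
        rw [sg_sdiff b1]
        have := (cl U B).add_mem b4 (le_cl U B hZ.2.1)
        have e1 : r + x₁ + sg (S r) + sg Z = r + x₁ + (sg Z + sg (S r)) := by abel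
        rwa [e1] at this
      have h3 := hside r (hRD hr) x₁ hx₁ (Z \ S r) Finset.sdiff_subset hnon
        (fun h => (Finset.mem_sdiff.1 h).2 he1) hd
      simp only [if_pos he1]
      omega
    · simp only [if_neg he1]; omega

theorem top_count {U : Submodule (ZMod 2) V} {G Z B D : Finset V} (hreg : Reg U G)
    (hZG : Z ⊆ G) (hBG : B ⊆ G) (hDG : D ⊆ G) (hZ : Circ U Z) (hB : Ind (cl U Z) B)
    (h1 : ∀ x ∈ D, x ∉ cl (cl U Z) B) (h2 : ∀ x ∈ D, ∀ y ∈ D, x + y ∈ cl (cl U Z) B)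
    (hside : ∀ x ∈ D, ∀ y ∈ D, ∀ A ⊆ Z, A.Nonempty → A ≠ Z → ∀ B1 ⊆ B, x + y + sg B1 + sg A ∈ U → 2 + B1.card ≤ A.card)
    {x y : V} (hx : x ∈ D) (hy : y ∈ D) {B2 : Finset V} (hB2 : B2 ⊆ B) (hxy : x + y + sg B2 ∈ cl U Z) :
    ∃ R ⊆ D, (∀ u ∈ D, u + x ∈ cl U B ∨ ∃ r ∈ R, u + r ∈ cl U B) ∧
      (R = ∅ ∨ 2 * (R.card + 1) + B2.card ≤ Z.card) := by
  have hZ' : Circ (cl U B) Z := hZ.ext hB
  have hcomm : cl (cl U Z) B = cl (cl U B) Z := cl_comm U Z B
  -- distances
  have hBex : ∀ u ∈ D, ∀ u' ∈ D, ∃ A ⊆ B, u + u' + sg A ∈ cl U Z := by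
    intro u hu u' hu'
    exact mem_cl.1 (h2 u hu u' hu')
  have hBex' : ∀ u u' : V, ∃ A : Finset V, u ∈ D → u' ∈ D → A ⊆ B ∧ u + u' + sg A ∈ cl U Z := by
    intro u u'
    by_cases hu : u ∈ D ∧ u' ∈ D
    · obtain ⟨A, hA, hA'⟩ := hBex u hu.1 u' hu.2
      exact ⟨A, fun _ _ => ⟨hA, hA'⟩⟩
    · exact ⟨∅, fun h h' => absurd ⟨h, h'⟩ hu⟩
  choose Bf hBf using hBex'
  have huniq : ∀ u ∈ D, ∀ u' ∈ D, ∀ A ⊆ B, u + u' + sg A ∈ cl U Z → A = Bf u u' := by
    intro u hu u' hu' A hA hs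
    obtain ⟨b1, b2⟩ := hBf u u' hu hu'
    apply hB.uniq hA b1
    have := (cl U Z).add_mem hs b2
    have e1 : u + u' + sg A + (u + u' + sg (Bf u u')) =
        sg A + sg (Bf u u') + ((u + u) + (u' + u')) := by abel
    rwa [e1, dbl, dbl, add_zero, add_zero] at this
  have htri : ∀ u ∈ D, ∀ u' ∈ D, ∀ u'' ∈ D,
      (Bf u u'').card ≤ (Bf u u').card + (Bf u' u'').card := by
    intro u hu u' hu' u'' hu''
    obtain ⟨b1, b2⟩ := hBf u u' hu hu'
    obtain ⟨c1, c2⟩ := hBf u' u'' hu' hu''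
    have h3 : symmDiff (Bf u u') (Bf u' u'') = Bf u u'' := by
      apply huniq u hu u'' hu''
      · intro z hz
        rw [Finset.mem_symmDiff] at hz
        rcases hz with hz | hz
        · exact b1 hz.1
        · exact c1 hz.1
      · rw [sg_symmDiff]
        have := (cl U Z).add_mem b2 c2
        have e1 : u + u' + sg (Bf u u') + (u' + u'' + sg (Bf u' u'')) =
          u + u'' + (sg (Bf u u') + sg (Bf u' u'')) + (u' + u') := by abel
        rwa [e1, dbl, add_zero] at this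
    rw [← h3]
    refine (Finset.card_le_card (t := Bf u u' ∪ Bf u' u'') ?_).trans (Finset.card_union_le _ _)
    intro z hz
    rw [Finset.mem_symmDiff] at hz
    rw [Finset.mem_union]
    rcases hz with hz | hz
    · exact Or.inl hz.1
    · exact Or.inr hz.1
  have hF2 : ∀ u ∈ D, ∀ u' ∈ D, ∀ A ⊆ Z, A.Nonempty → A ≠ Z → u + u' + sg A ∈ cl U B →
      2 + (Bf u u').card ≤ A.card := by
    intro u hu u' hu' A hA hne hnZ hs
    obtain ⟨B1, hB1, hs1⟩ := mem_cl.1 hs
    have h3 : u + u' + sg B1 + sg A ∈ U := by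
      have e1 : u + u' + sg A + sg B1 = u + u' + sg B1 + sg A := by abel
      rwa [e1] at hs1
    have h4 : u + u' + sg B1 ∈ cl U Z := by
      have := (cl U Z).add_mem (le_cl U Z h3) (sg_mem_cl hA)
      rwa [add_assoc, dbl, add_zero] at this
    rw [← huniq u hu u' hu' B1 hB1 h4]
    exact hside u hu u' hu' A hA hne hnZ B1 hB1 h3
  have hβ : (Bf y x).card = B2.card := by
    rw [← huniq y hy x hx B2 hB2 (by rw [add_comm y x]; exact hxy)]
  have h1' := h1
  have h2' := h2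
  rw [hcomm] at h1' h2'
  obtain ⟨S, hS1, hS2⟩ := cyc (hreg.mono subset_rfl hBG) hZG hDG hZ' h1' h2' hx
  -- representatives
  obtain ⟨R0, hR0D, hR01, hR02, hR03⟩ : ∃ R0 ⊆ D, (∀ r ∈ R0, r + x ∉ cl U B) ∧
      (∀ r ∈ R0, ∀ r' ∈ R0, r ≠ r' → r + r' ∉ cl U B) ∧ (y + x ∉ cl U B → y ∈ R0) := by
    by_cases hyx : y + x ∈ cl U B
    · exact ⟨∅, by simp, by simp, by simp, fun h => absurd hyx h⟩
    · refine ⟨{y}, by simpa using hy, ?_, ?_, fun _ => by simp⟩
      · intro r hr
        rw [Finset.mem_singleton] at hr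
        rw [hr]; exact hyx
      · intro r hr r' hr' hne
        rw [Finset.mem_singleton] at hr hr'
        exact absurd (hr.trans hr'.symm) hne
  obtain ⟨R, hRD, hR0R, hR1, hR2, hR3⟩ := CT_reps (cl U B) D R0 x hR0D hR01 hR02
  refine ⟨R, hRD, hR3, ?_⟩
  by_cases hRe : R = ∅
  · left; exact hRe
  right
  have hSr : ∀ r ∈ R, S r ⊆ Z ∧ (S r).Nonempty ∧ S r ≠ Z ∧ r + x + sg (S r) ∈ cl U B :=
    fun r hr => hS1 r (hRD hr) (hR1 r hr)
  have hne : ∀ r ∈ R, ∀ r' ∈ R, r ≠ r' → S r ≠ S r' := by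
    intro r hr r' hr' hrr he'
    have a1 := (hSr r hr).2.2.2
    have a2 := (hSr r' hr').2.2.2
    have a3 := CT_diff a1 a2 (by rw [he'])
    rw [he', Finset.sdiff_self, sg_empty, add_zero] at a3
    exact hR2 r' hr' r hr (Ne.symm hrr) a3
  -- complements
  have hcompl : ∀ r ∈ R, ∀ u ∈ D, u + x ∈ cl U B → (S r).card + 2 + (Bf u r).card ≤ Z.card := by
    intro r hr u hu hux
    obtain ⟨b1, b2, b3, b4⟩ := hSr r hr
    have hnon : (Z \ S r).Nonempty := by
      rw [Finset.sdiff_nonempty]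
      intro h
      exact b3 (Finset.Subset.antisymm b1 h)
    have hnZ : Z \ S r ≠ Z := by
      intro h
      obtain ⟨z, hz⟩ := b2
      have := b1 hz
      rw [← h, Finset.mem_sdiff] at this
      exact this.2 hz
    have hd : u + r + sg (Z \ S r) ∈ cl U B := by
      rw [sg_sdiff b1]
      have := (cl U B).add_mem ((cl U B).add_mem b4 hux) (le_cl U B hZ.2.1)
      have e1 : r + x + sg (S r) + (u + x) + sg Z = u + r + (sg Z + sg (S r)) + (x + x) := by abel
      rwa [e1, dbl, add_zero] at this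
    have h3 := hF2 u hu r (hRD hr) (Z \ S r) Finset.sdiff_subset hnon hnZ hd
    have hcard : (Z \ S r).card = Z.card - (S r).card := Finset.card_sdiff_of_subset b1
    have hle := Finset.card_le_card b1
    omega
  have hxx : x + x ∈ cl U B := by rw [dbl]; exact Submodule.zero_mem _
  have hgap0 : ∀ r ∈ R, ∀ r' ∈ R, r ≠ r' → S r ⊆ S r' →
      (S r).card + 2 + (Bf r' r).card ≤ (S r').card := by
    intro r hr r' hr' hrr hsub
    obtain ⟨b1, b2, b3, b4⟩ := hSr r hr
    obtain ⟨c1, c2, c3, c4⟩ := hSr r' hr'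
    have hd := CT_diff b4 c4 hsub
    have hcard : (S r' \ S r).card = (S r').card - (S r).card := Finset.card_sdiff_of_subset hsub
    have hle := Finset.card_le_card hsub
    have hnon : (S r' \ S r).Nonempty := by
      rw [Finset.sdiff_nonempty]
      intro h
      exact hne r hr r' hr' hrr (Finset.Subset.antisymm hsub h)
    have hnZ : S r' \ S r ≠ Z := by
      intro h
      obtain ⟨z, hz⟩ := b2
      have := b1 hz
      rw [← h, Finset.mem_sdiff] at this
      exact this.2 hz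
    have h3 := hF2 r' (hRD hr') r (hRD hr) (S r' \ S r) (Finset.sdiff_subset.trans c1) hnon hnZ hd
    omega
  have hself : ∀ r ∈ R, 2 + (Bf r x).card ≤ (S r).card := by
    intro r hr
    obtain ⟨b1, b2, b3, b4⟩ := hSr r hr
    exact hF2 r (hRD hr) x hx (S r) b1 b2 b3 b4
  -- the threshold
  obtain ⟨T, hTZ, hT2, hT3, hT4⟩ : ∃ T ⊆ Z, (∀ r ∈ R, S r ⊂ T ∨ T ⊆ S r) ∧
      (∀ r ∈ R, S r ⊂ T → (S r).card + 2 + (Bf y r).card ≤ T.card) ∧
      (∀ r ∈ R, T ⊆ S r → 2 + (Bf y x).card ≤ (S r).card) := by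
    by_cases hyx : y + x ∈ cl U B
    · refine ⟨Z, subset_rfl, ?_, ?_, ?_⟩
      · intro r hr
        left
        exact Finset.ssubset_iff_subset_ne.2 ⟨(hSr r hr).1, (hSr r hr).2.2.1⟩
      · intro r hr _
        exact hcompl r hr y hy hyx
      · intro r hr h
        exact absurd (Finset.Subset.antisymm (hSr r hr).1 h) (hSr r hr).2.2.1
    · have hyR : y ∈ R := hR0R (hR03 hyx)
      refine ⟨S y, (hSr y hyR).1, ?_, ?_, ?_⟩
      · intro r hr
        rcases hS2 r (hRD hr) y hy (hR1 r hr) hyx with h | h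
        · by_cases he : S r = S y
          · right; rw [he]
          · left; exact Finset.ssubset_iff_subset_ne.2 ⟨h, he⟩
        · right; exact h
      · intro r hr h
        have hry : r ≠ y := by
          rintro rfl
          exact h.2 subset_rfl
        exact hgap0 r hr y hyR hry h.1
      · intro r hr h
        exact (hself y hyR).trans (Finset.card_le_card h)
  -- counting
  have hcond : ∀ r ∈ R, (S r).card + 2 ≤ Z.card := by
    intro r hr
    have := hcompl r hr x hx hxx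
    omega
  have hTc := Finset.card_le_card hTZ
  have hψ2 : ∀ r ∈ R, 2 ≤ (if S r ⊂ T then (S r).card - (Bf r x).card
      else (S r).card - (Bf y x).card) := by
    intro r hr
    by_cases h : S r ⊂ T
    · rw [if_pos h]
      have := hself r hr
      omega
    · rw [if_neg h]
      have := hT4 r hr ((hT2 r hr).resolve_left h)
      omega
  have hψN : ∀ r ∈ R, (if S r ⊂ T then (S r).card - (Bf r x).card
      else (S r).card - (Bf y x).card) + 2 ≤ Z.card - (Bf y x).card := by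
    intro r hr
    by_cases h : S r ⊂ T
    · rw [if_pos h]
      have a1 := hself r hr
      have a2 := hT3 r hr h
      have a3 := htri y hy r (hRD hr) x hx
      omega
    · rw [if_neg h]
      have a1 := hT4 r hr ((hT2 r hr).resolve_left h)
      have a2 := hcond r hr
      omega
  have hψgap : ∀ r ∈ R, ∀ r' ∈ R, r ≠ r' → S r ⊆ S r' →
      (if S r ⊂ T then (S r).card - (Bf r x).card else (S r).card - (Bf y x).card) + 2 ≤
      (if S r' ⊂ T then (S r').card - (Bf r' x).card else (S r').card - (Bf y x).card) := by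
    intro r hr r' hr' hrr hsub
    have a0 := hgap0 r hr r' hr' hrr hsub
    by_cases h : S r ⊂ T
    · rw [if_pos h]
      have a1 := hself r hr
      by_cases h' : S r' ⊂ T
      · rw [if_pos h']
        have a2 := htri r' (hRD hr') r (hRD hr) x hx
        omega
      · rw [if_neg h']
        have a2 := hT3 r hr h
        have a3 := htri y hy r (hRD hr) x hx
        have a4 := Finset.card_le_card ((hT2 r' hr').resolve_left h')
        omega
    · have h' : ¬ S r' ⊂ T := fun h' => h (lt_of_le_of_lt hsub h')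
      rw [if_neg h, if_neg h']
      have a1 := hT4 r hr ((hT2 r hr).resolve_left h)
      omega
  obtain ⟨r0, hr0⟩ := Finset.nonempty_of_ne_empty hRe
  have hN2 : 2 ≤ Z.card - (Bf y x).card := by
    have a1 := hψN r0 hr0
    omega
  have key := chain_count R (fun r => if S r ⊂ T then (S r).card - (Bf r x).card
      else (S r).card - (Bf y x).card) (Z.card - (Bf y x).card) hN2 hψ2 (by
    intro r hr r' hr' hrr
    rcases hS2 r (hRD hr) r' (hRD hr') (hR1 r hr) (hR1 r' hr') with h | h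
    · left; exact hψgap r hr r' hr' hrr h
    · right; exact hψgap r' hr' r hr (Ne.symm hrr) h) hψN
  rw [hβ] at key hN2
  omega

end Pool.Agent.helper24.Welsh
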