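import Pool.Agent.helper24.Welsh.Tool2
import Pool.Agent.helper71.Welsh.CN
import Pool.Agent.helper71.Welsh.TU

/-! Module IN of the Welsh project (MP_1cfd26_co): the independence lemma. -/

set_option autoImplicit false

namespace Pool.Agent.helper24.Welsh

open Finset Module

variable {V : Type} [AddCommGroup V] [Module (ZMod 2) V] [DecidableEq V]

/-- the sum of vectors congruent to `w` is `0` or `w` -/
theorem IN_par {U : Submodule (ZMod 2) V} {w : V} (C : Finset V) (h : ∀ x ∈ C, x + w ∈ U) :
    sg C ∈ U ∨ sg C + w ∈ U := by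
  induction C using Finset.induction_on with
  | empty => left; rw [sg_empty]; exact U.zero_mem
  | insert a C ha ih =>
    rw [sg_insert ha]
    have h1 := h a (Finset.mem_insert_self _ _)
    rcases ih (fun x hx => h x (Finset.mem_insert_of_mem hx)) with h2 | h2
    · right
      have := U.add_mem h1 h2
      have e : a + w + sg C = a + sg C + w := by abel
      rwa [e] at this
    · left
      have := U.add_mem h1 h2
      have e : a + w + (sg C + w) = a + sg C + (w + w) := by abel
      rwa [e, dbl, add_zero] at this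

/-- the class of `w' + w''` is hit by an element of a connected set -/
theorem IN_hit {U : Submodule (ZMod 2) V} {Hs : Finset V} {w' w'' : V} (hc : Conn U Hs)
    (h1 : w' ∉ U) (h2 : w'' ∉ U) (h12 : w' + w'' ∉ U)
    (hall : ∀ h ∈ Hs, h + w' ∈ U ∨ h + w'' ∈ U) (hw' : w' ∈ cl U Hs) (hw'' : w'' ∈ cl U Hs) :
    False := by
  classical
  set A := Hs.filter (fun h => h + w' ∈ U) with hA
  by_cases hAe : A = ∅
  · -- all elements are congruent to `w''`
    have hall' : ∀ h ∈ Hs, h + w'' ∈ U := by
      intro h hh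
      rcases hall h hh with h3 | h3
      · have : h ∈ A := by rw [hA, Finset.mem_filter]; exact ⟨hh, h3⟩
        rw [hAe] at this
        simp at this
      · exact h3
    obtain ⟨A', hA', hs⟩ := mem_cl.1 hw'
    rcases IN_par A' (fun x hx => hall' x (hA' hx)) with h3 | h3
    · exact h1 ((mem_congr hs).2 h3)
    · exact h12 (mem_trans hs h3)
  · by_cases hAH : A = Hs
    · have hall' : ∀ h ∈ Hs, h + w' ∈ U := by
        intro h hh
        rw [← hAH, hA, Finset.mem_filter] at hh
        exact hh.2
      obtain ⟨A', hA', hs⟩ := mem_cl.1 hw''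
      rcases IN_par A' (fun x hx => hall' x (hA' hx)) with h3 | h3
      · exact h2 ((mem_congr hs).2 h3)
      · exact h12 (mem_swap (mem_trans hs h3))
    · obtain ⟨C, hC, hs, hn⟩ := hc A (Finset.filter_subset _ _) (Finset.nonempty_of_ne_empty hAe) hAH
      apply hn
      have e := sg_inter_sdiff C A
      rcases IN_par (w := w') (C ∩ A) (fun x hx => by
        have := (Finset.mem_inter.1 hx).2
        rw [hA, Finset.mem_filter] at this
        exact this.2) with h3 | h3
      · exact h3
      · exfalso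
        rcases IN_par (w := w'') (C \ A) (fun x hx => by
          rw [Finset.mem_sdiff] at hx
          rcases hall x (hC hx.1) with h4 | h4
          · exact absurd (by rw [hA, Finset.mem_filter]; exact ⟨hC hx.1, h4⟩) hx.2
          · exact h4) with h4 | h4
        · apply h1
          have h5 : sg (C ∩ A) ∈ U := by
            have := U.add_mem h4 hs
            rw [← e] at this
            have e2 : sg (C \ A) + (sg (C ∩ A) + sg (C \ A)) =
              sg (C ∩ A) + (sg (C \ A) + sg (C \ A)) := by abel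
            rwa [e2, dbl, add_zero] at this
          exact (mem_congr h3).1 h5
        · apply h12
          have := U.add_mem (U.add_mem h3 h4) hs
          rw [← e] at this
          have e2 : sg (C ∩ A) + w' + (sg (C \ A) + w'') + (sg (C ∩ A) + sg (C \ A)) =
            w' + w'' + ((sg (C ∩ A) + sg (C ∩ A)) + (sg (C \ A) + sg (C \ A))) := by abel
          rwa [e2, dbl, dbl, add_zero, add_zero] at this

theorem IN_four {U : Submodule (ZMod 2) V} {Hs Z : Finset V} (hc : Conn U Hs) (hZ : Circ U Z)
    (h4 : Z.card = 4) (h1 : ∀ z ∈ Z, z ∉ cl U Hs) (h2 : ∀ z ∈ Z, ∀ z' ∈ Z, z + z' ∈ cl U Hs)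
    (hall : ∀ h ∈ Hs, ∃ a ∈ Z, ∃ b ∈ Z, a ≠ b ∧ h + (a + b) ∈ U) :
    F7 U (Z ∪ Hs) := by
  obtain ⟨z1, z2, z3, z4, n12, n13, n14, n23, n24, n34, rfl⟩ := Finset.card_eq_four.1 h4
  have hs : z1 + z2 + z3 + z4 ∈ U := by
    have := hZ.2.1
    rw [sg_insert (by simp [n12, n13, n14]), sg_insert (by simp [n23, n24]), sg_pair n34] at this
    have e : z1 + (z2 + (z3 + z4)) = z1 + z2 + z3 + z4 := by abel
    rwa [e] at this
  have hp : ∀ a ∈ ({z1, z2, z3, z4} : Finset V), ∀ b ∈ ({z1, z2, z3, z4} : Finset V), a ≠ b →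
      a + b ∉ U := fun a ha b hb hne => hZ.not_pair (by omega) ha hb hne
  have m1 : z1 ∈ ({z1, z2, z3, z4} : Finset V) := by simp
  have m2 : z2 ∈ ({z1, z2, z3, z4} : Finset V) := by simp
  have m3 : z3 ∈ ({z1, z2, z3, z4} : Finset V) := by simp
  have m4 : z4 ∈ ({z1, z2, z3, z4} : Finset V) := by simp
  have p12 := hp z1 m1 z2 m2 n12
  have p13 := hp z1 m1 z3 m3 n13
  have p14 := hp z1 m1 z4 m4 n14
  have p23 := hp z2 m2 z3 m3 n23
  have p24 := hp z2 m2 z4 m4 n24
  have p34 := hp z3 m3 z4 m4 n34
  -- every element of `Hs` is congruent to `z1 + z_i`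
  have hall' : ∀ h ∈ Hs, h + (z1 + z2) ∈ U ∨ h + (z1 + z3) ∈ U ∨ h + (z1 + z4) ∈ U := by
    intro h hh
    have key : ∀ a b c d : V, a + b + c + d ∈ U → h + (a + b) ∈ U → h + (c + d) ∈ U := by
      intro a b c d hsum hab
      have := U.add_mem hsum hab
      have e : a + b + c + d + (h + (a + b)) = h + (c + d) + ((a + a) + (b + b)) := by abel
      rwa [e, dbl, dbl, add_zero, add_zero] at this
    have s34 : z3 + z4 + z1 + z2 ∈ U := by
      have e : z3 + z4 + z1 + z2 = z1 + z2 + z3 + z4 := by abel
      rw [e]; exact hs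
    have s24 : z2 + z4 + z1 + z3 ∈ U := by
      have e : z2 + z4 + z1 + z3 = z1 + z2 + z3 + z4 := by abel
      rw [e]; exact hs
    have s23 : z2 + z3 + z1 + z4 ∈ U := by
      have e : z2 + z3 + z1 + z4 = z1 + z2 + z3 + z4 := by abel
      rw [e]; exact hs
    obtain ⟨a, ha, b, hb, hne, hab⟩ := hall h hh
    simp only [Finset.mem_insert, Finset.mem_singleton] at ha hb
    rcases ha with rfl | rfl | rfl | rfl <;> rcases hb with rfl | rfl | rfl | rfl
    · exact absurd rfl hne
    · exact Or.inl hab
    · exact Or.inr (Or.inl hab)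
    · exact Or.inr (Or.inr hab)
    · rw [add_comm a b] at hab; exact Or.inl hab
    · exact absurd rfl hne
    · exact Or.inr (Or.inr (key _ _ _ _ s23 hab))
    · exact Or.inr (Or.inl (key _ _ _ _ s24 hab))
    · rw [add_comm a b] at hab; exact Or.inr (Or.inl hab)
    · rw [add_comm a b] at hab; exact Or.inr (Or.inr (key _ _ _ _ s23 hab))
    · exact absurd rfl hne
    · exact Or.inl (key _ _ _ _ s34 hab)
    · rw [add_comm a b] at hab; exact Or.inr (Or.inr hab)
    · rw [add_comm a b] at hab; exact Or.inr (Or.inl (key _ _ _ _ s24 hab))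
    · rw [add_comm a b] at hab; exact Or.inl (key _ _ _ _ s34 hab)
    · exact absurd rfl hne
  -- pairwise sums of the `w_i`
  have q23 : z1 + z2 + (z1 + z3) ∉ U := by
    have e : z1 + z2 + (z1 + z3) = z2 + z3 + (z1 + z1) := by abel
    rw [e, dbl, add_zero]; exact p23
  have q24 : z1 + z2 + (z1 + z4) ∉ U := by
    have e : z1 + z2 + (z1 + z4) = z2 + z4 + (z1 + z1) := by abel
    rw [e, dbl, add_zero]; exact p24
  have q34 : z1 + z3 + (z1 + z4) ∉ U := by
    have e : z1 + z3 + (z1 + z4) = z3 + z4 + (z1 + z1) := by abel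
    rw [e, dbl, add_zero]; exact p34
  have hit2 : ∃ h ∈ Hs, h + (z1 + z2) ∈ U := by
    by_contra hcon
    push Not at hcon
    exact IN_hit hc p13 p14 q34 (fun h hh => (hall' h hh).resolve_left (hcon h hh))
      (h2 z1 m1 z3 m3) (h2 z1 m1 z4 m4)
  have hit3 : ∃ h ∈ Hs, h + (z1 + z3) ∈ U := by
    by_contra hcon
    push Not at hcon
    refine IN_hit hc p12 p14 q24 (fun h hh => ?_) (h2 z1 m1 z2 m2) (h2 z1 m1 z4 m4)
    rcases hall' h hh with h3 | h3 | h3
    · exact Or.inl h3
    · exact absurd h3 (hcon h hh)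
    · exact Or.inr h3
  have hit4 : ∃ h ∈ Hs, h + (z1 + z4) ∈ U := by
    by_contra hcon
    push Not at hcon
    refine IN_hit hc p12 p13 q23 (fun h hh => ?_) (h2 z1 m1 z2 m2) (h2 z1 m1 z3 m3)
    rcases hall' h hh with h3 | h3 | h3
    · exact Or.inl h3
    · exact Or.inr h3
    · exact absurd h3 (hcon h hh)
  obtain ⟨k2, hk2, e2⟩ := hit2
  obtain ⟨k3, hk3, e3⟩ := hit3
  obtain ⟨k4, hk4, e4⟩ := hit4
  refine ⟨z1, Finset.mem_union_left _ m1, k2, Finset.mem_union_right _ hk2, k3,
    Finset.mem_union_right _ hk3, z2, Finset.mem_union_left _ m2, z3, Finset.mem_union_left _ m3,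
    k4, Finset.mem_union_right _ hk4, z4, Finset.mem_union_left _ m4, ?_, ?_, ?_, ?_, ?_⟩
  · intro i j k hijk
    have hle := le_cl U Hs
    have hcases : ∀ t : ZMod 2, t = 0 ∨ t = 1 := by decide
    have hi : i = 0 := by
      by_contra hi
      have hi1 : i = 1 := (hcases i).resolve_left hi
      apply h1 z1 m1
      have a1 := hle hijk
      have a2 := (cl U Hs).smul_mem j (self_mem_cl (U := U) hk2)
      have a3 := (cl U Hs).smul_mem k (self_mem_cl (U := U) hk3)
      rw [hi1, one_smul] at a1
      have a4 := (cl U Hs).add_mem a1 ((cl U Hs).add_mem a2 a3)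
      have e : z1 + j • k2 + k • k3 + (j • k2 + k • k3) =
        z1 + ((j • k2 + j • k2) + (k • k3 + k • k3)) := by abel
      rwa [e, dbl, dbl, add_zero, add_zero] at a4
    rw [hi, zero_smul, zero_add] at hijk
    have n2 : k2 ∉ U := fun h => p12 ((mem_congr e2).1 h)
    have n3 : k3 ∉ U := fun h => p13 ((mem_congr e3).1 h)
    have n23' : k2 + k3 ∉ U := by
      intro h
      apply q23
      have := U.add_mem (U.add_mem e2 e3) h
      have e : k2 + (z1 + z2) + (k3 + (z1 + z3)) + (k2 + k3) =
        z1 + z2 + (z1 + z3) + ((k2 + k2) + (k3 + k3)) := by abel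
      rwa [e, dbl, dbl, add_zero, add_zero] at this
    rcases hcases j with hj | hj <;> rcases hcases k with hk | hk
    · exact ⟨hi, hj, hk⟩
    · rw [hj, hk, zero_smul, one_smul, zero_add] at hijk
      exact absurd hijk n3
    · rw [hj, hk, zero_smul, one_smul, add_zero] at hijk
      exact absurd hijk n2
    · rw [hj, hk, one_smul, one_smul] at hijk
      exact absurd hijk n23'
  · have e : z1 + k2 + z2 = k2 + (z1 + z2) := by abel
    rw [e]; exact e2
  · have e : z1 + k3 + z3 = k3 + (z1 + z3) := by abel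
    rw [e]; exact e3
  · have := U.add_mem (U.add_mem (U.add_mem e2 e3) e4) hs
    have e : k2 + (z1 + z2) + (k3 + (z1 + z3)) + (k4 + (z1 + z4)) + (z1 + z2 + z3 + z4) =
      k2 + k3 + k4 + ((z1 + z1) + (z1 + z1) + (z2 + z2) + (z3 + z3) + (z4 + z4)) := by abel
    rw [e] at this
    simpa only [dbl, add_zero] using this
  · have := U.add_mem (U.add_mem e2 e3) hs
    have e : k2 + (z1 + z2) + (k3 + (z1 + z3)) + (z1 + z2 + z3 + z4) =
      z1 + k2 + k3 + z4 + ((z1 + z1) + (z2 + z2) + (z3 + z3)) := by abel
    rw [e] at this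
    simpa only [dbl, add_zero] using this

theorem indep_aux (n : ℕ) : ∀ (U : Submodule (ZMod 2) V) (Hs Z : Finset V), Hs.card = n → Conn U Hs → Circ U Z →
    4 ≤ Z.card → (∀ z ∈ Z, z ∉ cl U Hs) → (∀ z ∈ Z, ∀ z' ∈ Z, z + z' ∈ cl U Hs) →
    ∃ I ⊆ Hs, F7 (cl U I) (Z ∪ Hs) := by
  induction n with
  | zero =>
    intro U Hs Z hn _ hZ h4 _ h2
    rw [Finset.card_eq_zero] at hn
    subst hn
    rw [cl_empty] at h2
    obtain ⟨a, ha, b, hb, hab⟩ := Finset.one_lt_card.1 (by omega : 1 < Z.card)
    exact absurd (h2 a ha b hb) (hZ.not_pair (by omega) ha hb hab)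
  | succ n ih =>
    intro U Hs Z hn hc hZ h4 h1 h2
    -- at least two elements
    have hHs2 : 2 ≤ Hs.card := by
      by_contra hlt
      have hone : Hs.card = 1 := by omega
      obtain ⟨h, rfl⟩ := Finset.card_eq_one.1 hone
      obtain ⟨a, b, c, ha, hb, hc', hab, hac, hbc⟩ := Finset.two_lt_card_iff.1 (by omega : 2 < Z.card)
      have k1 := (mem_cl_singleton.1 (h2 a ha b hb)).resolve_left (hZ.not_pair (by omega) ha hb hab)
      have k2 := (mem_cl_singleton.1 (h2 a ha c hc')).resolve_left
        (hZ.not_pair (by omega) ha hc' hac)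
      apply hZ.not_pair (by omega) hb hc' hbc
      have := U.add_mem k1 k2
      have e : a + b + h + (a + c + h) = b + c + ((a + a) + (h + h)) := by abel
      rwa [e, dbl, dbl, add_zero, add_zero] at this
    have hpar : ∀ A ⊆ Z, (sg A ∈ cl U Hs ↔ Even A.card) := fun A hA => parity h1 h2 hA
    have hZeven : Even Z.card := (hpar Z subset_rfl).1 (le_cl U Hs hZ.2.1)
    by_cases hcase : Z.card = 4 ∧ ∀ h ∈ Hs, ∃ a ∈ Z, ∃ b ∈ Z, a ≠ b ∧ h + (a + b) ∈ U
    · refine ⟨∅, Finset.empty_subset _, ?_⟩
      rw [cl_empty]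
      exact IN_four hc hZ hcase.1 h1 h2 hcase.2
    · -- choose `h`
      obtain ⟨h, hh, hh'⟩ : ∃ h ∈ Hs, Z.card = 4 → ∀ a ∈ Z, ∀ b ∈ Z, a ≠ b → h + (a + b) ∉ U := by
        by_cases h4' : Z.card = 4
        · have : ¬ ∀ h ∈ Hs, ∃ a ∈ Z, ∃ b ∈ Z, a ≠ b ∧ h + (a + b) ∈ U := fun h => hcase ⟨h4', h⟩
          push Not at this
          obtain ⟨h, hh, hh'⟩ := this
          exact ⟨h, hh, fun _ => hh'⟩
        · obtain ⟨h, hh⟩ := Finset.card_pos.1 (by omega : 0 < Hs.card)
          exact ⟨h, hh, fun h => absurd h h4'⟩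
      have hhU : h ∉ U := conn_no_loop hc hHs2 h hh
      have hdep := conn_dep hc hHs2 hh
      have hcl : cl U (Hs.erase h) = cl U Hs := by
        apply le_antisymm (cl_mono (Finset.erase_subset _ _))
        rw [cl_le]
        refine ⟨le_cl _ _, fun x hx => ?_⟩
        by_cases hxh : x = h
        · rw [hxh]; exact hdep
        · exact self_mem_cl (Finset.mem_erase.2 ⟨hxh, hx⟩)
      have hcard : (Hs.erase h).card = n := by rw [Finset.card_erase_of_mem hh]; omega
      have hsub : Z ∪ Hs.erase h ⊆ Z ∪ Hs :=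
        Finset.union_subset_union subset_rfl (Finset.erase_subset _ _)
      by_cases hconn : Conn U (Hs.erase h)
      · obtain ⟨I, hI, hF⟩ := ih U (Hs.erase h) Z hcard hconn hZ h4 (by rw [hcl]; exact h1)
          (by rw [hcl]; exact h2)
        exact ⟨I, hI.trans (Finset.erase_subset _ _), hF.mono hsub⟩
      · have hconn' := tutte hc hh hconn
        have hcl' : cl (cl U {h}) (Hs.erase h) = cl U Hs := by
          rw [← cl_insert, Finset.insert_erase hh]
        -- a circuit modulo `cl U {h}`
        obtain ⟨Z', hZ'Z, hZ', hZ'4⟩ : ∃ Z' ⊆ Z, Circ (cl U {h}) Z' ∧ 4 ≤ Z'.card := by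
          by_cases hhZ : h ∈ cl U Z
          · obtain ⟨I, hI, hsI⟩ := mem_cl.1 hhZ
            have hhH : h ∈ cl U Hs := self_mem_cl hh
            have hIH : sg I ∈ cl U Hs := (mem_congr (le_cl U Hs hsI)).1 hhH
            have hIe := (hpar I hI).1 hIH
            have hJ : sg (Z \ I) + h ∈ U := by
              rw [sg_sdiff hI]
              have := U.add_mem hZ.2.1 hsI
              have e : sg Z + (h + sg I) = sg Z + sg I + h := by abel
              rwa [e] at this
            have hcardJ : (Z \ I).card = Z.card - I.card := Finset.card_sdiff_of_subset hI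
            have hcardI := Finset.card_le_card hI
            have hI0 : I ≠ ∅ := by
              rintro rfl
              rw [sg_empty, add_zero] at hsI
              exact hhU hsI
            have hIZ : I ≠ Z := by
              rintro rfl
              exact hhU ((mem_congr hsI).2 hZ.2.1)
            have hIpos : 0 < I.card := Finset.card_pos.2 (Finset.nonempty_of_ne_empty hI0)
            have hIlt : I.card < Z.card := Finset.card_lt_card
              (Finset.ssubset_iff_subset_ne.2 ⟨hI, hIZ⟩)
            -- sides are circuits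
            have hside : ∀ A ⊆ Z, A.Nonempty → A ≠ Z → sg A + h ∈ U → Circ (cl U {h}) A := by
              intro A hA hne hnZ hs
              refine ⟨hne, mem_cl_singleton.2 (Or.inr hs), ?_⟩
              intro E hE hEne hEs
              rcases mem_cl_singleton.1 hEs with hs' | hs'
              · rcases hZ.sub_eq (hE.trans hA) hs' with h3 | h3
                · exact absurd h3 (Finset.nonempty_iff_ne_empty.1 hEne)
                · exfalso
                  apply hnZ
                  exact Finset.Subset.antisymm hA (h3 ▸ hE)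
              · have h5 : sg A + sg E ∈ U := mem_trans hs (mem_swap hs')
                rcases hZ.sides hA (hE.trans hA) h5 with h3 | h3
                · exact h3
                · exfalso
                  obtain ⟨z, hz⟩ := hEne
                  have h6 := hE hz
                  rw [h3, Finset.mem_sdiff] at hz
                  exact hz.2 h6
            have hcI := hside I hI (Finset.nonempty_of_ne_empty hI0) hIZ (mem_swap hsI)
            have hJne : (Z \ I).Nonempty := by
              rw [Finset.sdiff_nonempty]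
              intro h'
              exact hIZ (Finset.Subset.antisymm hI h')
            have hJZ : Z \ I ≠ Z := by
              intro h'
              have := congrArg Finset.card h'
              omega
            have hcJ := hside (Z \ I) Finset.sdiff_subset hJne hJZ hJ
            by_cases hI4 : 4 ≤ I.card
            · exact ⟨I, hI, hcI, hI4⟩
            · by_cases hJ4 : 4 ≤ (Z \ I).card
              · exact ⟨Z \ I, Finset.sdiff_subset, hcJ, hJ4⟩
              · exfalso
                obtain ⟨i, hi⟩ := hIe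
                obtain ⟨m, hm⟩ := hZeven
                have hI2 : I.card = 2 := by omega
                have hZ4 : Z.card = 4 := by omega
                obtain ⟨a, b, hab, rfl⟩ := Finset.card_eq_two.1 hI2
                rw [sg_pair hab] at hsI
                exact hh' hZ4 a (hI (by simp)) b (hI (by simp)) hab hsI
          · refine ⟨Z, subset_rfl, ⟨hZ.1, le_cl _ _ hZ.2.1, ?_⟩, h4⟩
            intro A hA hAne hs
            rcases mem_cl_singleton.1 hs with hs' | hs'
            · exact hZ.2.2 A hA hAne hs'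
            · exfalso
              exact hhZ (mem_cl.2 ⟨A, hA, mem_swap hs'⟩)
        obtain ⟨I, hI, hF⟩ := ih (cl U {h}) (Hs.erase h) Z' hcard hconn' hZ' hZ'4
          (by rw [hcl']; exact fun z hz => h1 z (hZ'Z hz))
          (by rw [hcl']; exact fun z hz z' hz' => h2 z (hZ'Z hz) z' (hZ'Z hz'))
        rw [← cl_insert] at hF
        refine ⟨insert h I, Finset.insert_subset hh (hI.trans (Finset.erase_subset _ _)), ?_⟩
        exact hF.mono ((Finset.union_subset_union hZ'Z (Finset.erase_subset _ _)))

theorem indep_lemma {O : Submodule (ZMod 2) V} {G Hs D : Finset V} (hreg : Reg O G) (hD : D ⊆ G) (hHs : Hs ⊆ G)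
    (hsimp : ∀ x ∈ D, ∀ y ∈ D, x + y ∈ O → x = y) (hc : Conn O Hs)
    (h1 : ∀ x ∈ D, x ∉ cl O Hs) (h2 : ∀ x ∈ D, ∀ y ∈ D, x + y ∈ cl O Hs) : Ind O D := by
  by_contra hcon
  obtain ⟨Z, hZD, hZ⟩ := exists_circ hcon
  have hpar : Even Z.card := (parity h1 h2 hZD).1 (le_cl O Hs hZ.2.1)
  have hpos : 0 < Z.card := Finset.card_pos.2 hZ.1
  have h2' : Z.card ≠ 2 := by
    intro h
    obtain ⟨a, b, hab, rfl⟩ := Finset.card_eq_two.1 h
    have := hZ.2.1
    rw [sg_pair hab] at this
    exact hab (hsimp a (hZD (by simp)) b (hZD (by simp)) this)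
  have h4 : 4 ≤ Z.card := by
    obtain ⟨m, hm⟩ := hpar
    omega
  obtain ⟨I, hI, hF⟩ := indep_aux Hs.card O Hs Z rfl hc hZ h4 (fun z hz => h1 z (hZD hz))
    (fun z hz z' hz' => h2 z (hZD hz) z' (hZD hz'))
  exact (hreg I (hI.trans hHs)).1 (hF.mono (Finset.union_subset (hZD.trans hD) hHs))

end Pool.Agent.helper24.Welsh
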